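import Pool.Agent.Work.MP_4eb3f9_an.Interface

/-!
# MP_4eb3f9_an, block C1: strong maximum principle for usc psh functions on the bidisc
-/

set_option autoImplicit false

open Complex MeasureTheory Filter Topology Set
open scoped ContDiff ComplexOrder

namespace CMA
namespace BlockC

lemma isOpen_Poly (r : ℝ) : IsOpen (Poly r) := by
  have : Poly r = (fun p : ℂ × ℂ => ‖p.1‖) ⁻¹' Iio r ∩ (fun p : ℂ × ℂ => ‖p.2‖) ⁻¹' Iio r := by
    ext p; simp [Poly]
  rw [this]
  exact (isOpen_Iio.preimage (by fun_prop)).inter (isOpen_Iio.preimage (by fun_prop))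

lemma Bidisc_eq : Bidisc = Poly 1 := rfl

lemma isOpen_Bidisc : IsOpen Bidisc := isOpen_Poly 1

lemma isPreconnected_Bidisc : IsPreconnected Bidisc := by
  have : Bidisc = Metric.ball (0 : ℂ) 1 ×ˢ Metric.ball (0 : ℂ) 1 := by
    ext p; simp [Bidisc]
  rw [this]
  exact ((convex_ball _ _).prod (convex_ball _ _)).isPreconnected

lemma isOpen_neg {u : ℂ × ℂ → EReal} (h : UpperSemicontinuousOn u Bidisc) :
    IsOpen {p | p ∈ Bidisc ∧ u p < 0} := by
  rw [isOpen_iff_mem_nhds]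
  rintro p ⟨hp, hup⟩
  have h1 := h p hp 0 hup
  rw [isOpen_Bidisc.nhdsWithin_eq hp] at h1
  filter_upwards [h1, isOpen_Bidisc.mem_nhds hp] with q hq hq'
  exact ⟨hq', hq⟩

lemma eq_zero_of_submean {u : ℂ × ℂ → EReal} (hu : NegPSH u) {p v : ℂ × ℂ} (h0 : u p = 0)
    (hv : ∀ t : ℂ, ‖t‖ ≤ 1 → p + t • v ∈ Bidisc) : u (p + v) = 0 := by
  by_contra hne
  have hmem : p + v ∈ Bidisc := by simpa using hv 1 (by simp)
  have hlt : u (p + v) < 0 := lt_of_le_of_ne (hu.nonpos _ hmem) hne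
  have hI := hu.submean p v hv
  rw [h0] at hI
  simp only [neg_zero, EReal.toENNReal_zero, mul_zero, nonpos_iff_eq_zero] at hI
  obtain ⟨c, hc1, hc2⟩ := EReal.exists_between_coe_real hlt
  have hc0 : c < 0 := by exact_mod_cast hc2
  have hev := hu.usc (p + v) hmem c hc1
  rw [isOpen_Bidisc.nhdsWithin_eq hmem] at hev
  have hcont : Continuous (fun s : ℝ => p + Complex.exp (s * Complex.I) • v) := by fun_prop
  have hval : p + Complex.exp (((2 * Real.pi : ℝ) : ℂ) * Complex.I) • v = p + v := by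
    have : Complex.exp (((2 * Real.pi : ℝ) : ℂ) * Complex.I) = 1 := by
      push_cast
      exact Complex.exp_two_pi_mul_I
    rw [this, one_smul]
  have hev2 : ∀ᶠ s : ℝ in 𝓝 (2 * Real.pi), u (p + Complex.exp (s * Complex.I) • v) < c := by
    have h1 := hcont.tendsto (2 * Real.pi)
    rw [hval] at h1
    exact h1.eventually hev
  obtain ⟨ε, hε, hball⟩ := Metric.eventually_nhds_iff_ball.mp hev2
  set η := min (ε / 2) Real.pi with hη
  have hη0 : 0 < η := lt_min (by linarith) Real.pi_pos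
  have hη1 : η ≤ Real.pi := min_le_right _ _
  have hη2 : η < ε := lt_of_le_of_lt (min_le_left _ _) (by linarith)
  have hsub : Ioc (2 * Real.pi - η) (2 * Real.pi) ⊆ Ioc (0 : ℝ) (2 * Real.pi) := by
    intro s hs
    exact ⟨by linarith [hs.1, Real.pi_pos], hs.2⟩
  have h1 : ∫⁻ s in Ioc (2 * Real.pi - η) (2 * Real.pi), ENNReal.ofReal (-c) ≤
      ∫⁻ s in Ioc (2 * Real.pi - η) (2 * Real.pi),
        (-u (p + Complex.exp (s * Complex.I) • v)).toENNReal := by
    refine setLIntegral_mono' measurableSet_Ioc (fun s hs => ?_)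
    have h2 : u (p + Complex.exp (s * Complex.I) • v) < c := by
      apply hball
      rw [Metric.mem_ball, Real.dist_eq, abs_sub_lt_iff]
      constructor
      · linarith [hs.2]
      · linarith [hs.1]
    have h3 : ((-c : ℝ) : EReal) ≤ -u (p + Complex.exp (s * Complex.I) • v) := by
      rw [EReal.coe_neg]
      exact EReal.neg_le_neg_iff.mpr h2.le
    calc ENNReal.ofReal (-c) = ((-c : ℝ) : EReal).toENNReal := by
          rw [EReal.toENNReal_of_ne_top (EReal.coe_ne_top _), EReal.toReal_coe]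
      _ ≤ _ := EReal.toENNReal_le_toENNReal h3
  have h4 := h1.trans (lintegral_mono_set hsub)
  rw [hI, setLIntegral_const, Real.volume_Ioc, nonpos_iff_eq_zero, mul_eq_zero,
    ENNReal.ofReal_eq_zero, ENNReal.ofReal_eq_zero] at h4
  rcases h4 with h4 | h4 <;> linarith

theorem stmt_C1 : Stmt_C1 := by
  intro u hu hneg
  by_contra hcon
  push Not at hcon
  obtain ⟨q, hq, hq0⟩ := hcon
  have hpre := isPreconnected_Bidisc
  -- the zero set is open
  have hZ : IsOpen {p | p ∈ Bidisc ∧ u p = 0} := by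
    rw [isOpen_iff_mem_nhds]
    rintro p ⟨hp, hup⟩
    have hp' := hp
    obtain ⟨hp1, hp2⟩ := hp'
    have hO : IsOpen {x : ℂ × ℂ | ‖x.1 - p.1‖ < 1 - ‖p.1‖ ∧ ‖x.2 - p.2‖ < 1 - ‖p.2‖} := by
      have e : {x : ℂ × ℂ | ‖x.1 - p.1‖ < 1 - ‖p.1‖ ∧ ‖x.2 - p.2‖ < 1 - ‖p.2‖} =
        (fun x : ℂ × ℂ => ‖x.1 - p.1‖) ⁻¹' Iio (1 - ‖p.1‖) ∩
          (fun x : ℂ × ℂ => ‖x.2 - p.2‖) ⁻¹' Iio (1 - ‖p.2‖) := by
        ext x; simp
      rw [e]
      exact (isOpen_Iio.preimage (by fun_prop)).inter (isOpen_Iio.preimage (by fun_prop))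
    refine mem_of_superset (hO.mem_nhds ?_) ?_
    · simp only [mem_ofPred_eq, sub_self, norm_zero]
      exact ⟨by linarith, by linarith⟩
    · rintro x ⟨hx1, hx2⟩
      have hv : ∀ t : ℂ, ‖t‖ ≤ 1 → p + t • (x - p) ∈ Bidisc := by
        intro t ht
        constructor
        · calc ‖(p + t • (x - p)).1‖ ≤ ‖p.1‖ + ‖t‖ * ‖x.1 - p.1‖ := by
                rw [Prod.fst_add, Prod.smul_fst, Prod.fst_sub, smul_eq_mul, ← norm_mul]
                exact norm_add_le _ _
            _ ≤ ‖p.1‖ + 1 * ‖x.1 - p.1‖ := by gcongr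
            _ < 1 := by linarith
        · calc ‖(p + t • (x - p)).2‖ ≤ ‖p.2‖ + ‖t‖ * ‖x.2 - p.2‖ := by
                rw [Prod.snd_add, Prod.smul_snd, Prod.snd_sub, smul_eq_mul, ← norm_mul]
                exact norm_add_le _ _
            _ ≤ ‖p.2‖ + 1 * ‖x.2 - p.2‖ := by gcongr
            _ < 1 := by linarith
      have h1 := eq_zero_of_submean hu hup hv
      have h2 := hv 1 (by simp)
      rw [one_smul] at h2
      rw [add_sub_cancel] at h1 h2
      exact ⟨h2, h1⟩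
  have hN := isOpen_neg hu.usc
  have hcov : Bidisc ⊆ {p | p ∈ Bidisc ∧ u p = 0} ∪ {p | p ∈ Bidisc ∧ u p < 0} := by
    intro p hp
    rcases (hu.nonpos p hp).eq_or_lt with h | h
    · exact Or.inl ⟨hp, h⟩
    · exact Or.inr ⟨hp, h⟩
  obtain ⟨p, hp, hup⟩ := hneg
  obtain ⟨x, hx, hx1, hx2⟩ := hpre _ _ hZ hN hcov
    ⟨q, hq, hq, le_antisymm (hu.nonpos q hq) hq0⟩ ⟨p, hp, hp, hup⟩
  exact absurd hx1.2 (ne_of_lt hx2.2)

end BlockC
end CMA
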