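import Pool.Agent.Work.MP_4eb3f9_an_helper43.Tools

/-!
# MP_4eb3f9_an, block C: the family of admissible functions
-/

set_option autoImplicit false

open Complex MeasureTheory Filter Topology Set
open scoped ContDiff ComplexOrder

namespace CMA
namespace BlockC

/-- the smooth psh exhaustion `ρ_K` -/
noncomputable def rho (m : ℝ → ℝ) (d K : ℝ) (p : ℂ × ℂ) : ℝ :=
  K * (‖p.2‖ ^ 2 - 1) + m (K * (‖p.1‖ ^ 2 - 1) - K * (‖p.2‖ ^ 2 - 1)) + -d

open Classical in
/-- gluing of `v + a - 4 d` and `ρ_K` -/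
noncomputable def glue (m : ℝ → ℝ) (d K t a : ℝ) (v : ℂ × ℂ → ℝ) (p : ℂ × ℂ) : ℝ :=
  if p ∈ Poly t then rho m d K p + m (v p + (a - 4 * d) - rho m d K p) else rho m d K p

/-- the data -/
structure Good (d M : ℝ) (U : ℂ × ℂ → EReal) (v : ℂ × ℂ → ℝ) (a K r t ρ : ℝ) : Prop where
  a_pos : 0 < a
  a_le : a ≤ d / 2
  K_pos : 0 < K
  r_ge : 3 / 4 < r
  r_lt : r < t
  t_lt : t < ρ
  ρ_lt : ρ < 1
  t_sq : K * (1 - t ^ 2) < d
  smooth : ContDiffOn ℝ ∞ v (Poly ρ)
  pos : ∀ p ∈ Poly ρ, LPos v p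
  ge : ∀ p ∈ Poly ρ, U p ≤ (v p : EReal)
  le : ∀ p ∈ PD t t, v p ≤ d / 2
  deep : ∀ p ∈ PD (3 / 4) (3 / 4), v p ≤ -50 * d
  mass : ∫ p in PD r r, dH v p ≤ M
  low : ∀ p ∈ Poly ρ, p ∉ PD r r → -d / 2 ≤ v p
  bdd : ∀ p ∈ Poly ρ, -(K * (1 - r ^ 2)) + 10 * d ≤ v p

section rho

variable {m : ℝ → ℝ} {d K : ℝ}

lemma rho_le (hm : IsReg d m) (p : ℂ × ℂ) :
    rho m d K p ≤ max (K * (‖p.1‖ ^ 2 - 1)) (K * (‖p.2‖ ^ 2 - 1)) := by
  unfold rho
  have h := hm.le (K * (‖p.1‖ ^ 2 - 1) - K * (‖p.2‖ ^ 2 - 1))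
  rcases max_cases (K * (‖p.1‖ ^ 2 - 1) - K * (‖p.2‖ ^ 2 - 1)) 0 with ⟨h1, h2⟩ | ⟨h1, h2⟩
  · rw [h1] at h
    exact le_max_of_le_left (by linarith)
  · rw [h1] at h
    exact le_max_of_le_right (by linarith)

lemma rho_ge1 (hm : IsReg d m) (p : ℂ × ℂ) : K * (‖p.1‖ ^ 2 - 1) - d ≤ rho m d K p := by
  unfold rho
  have h := (le_max_left _ _).trans (hm.ge (K * (‖p.1‖ ^ 2 - 1) - K * (‖p.2‖ ^ 2 - 1)))
  linarith

lemma rho_ge2 (hm : IsReg d m) (p : ℂ × ℂ) : K * (‖p.2‖ ^ 2 - 1) - d ≤ rho m d K p := by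
  unfold rho
  have h := (le_max_right _ _).trans (hm.ge (K * (‖p.1‖ ^ 2 - 1) - K * (‖p.2‖ ^ 2 - 1)))
  linarith

lemma rho_nonpos (hm : IsReg d m) (hK : 0 ≤ K) {p : ℂ × ℂ} (hp : p ∈ Bidisc) :
    rho m d K p ≤ 0 := by
  refine (rho_le hm p).trans (max_le ?_ ?_)
  · have : ‖p.1‖ ^ 2 ≤ 1 := pow_le_one₀ (norm_nonneg _) hp.1.le
    nlinarith
  · have : ‖p.2‖ ^ 2 ≤ 1 := pow_le_one₀ (norm_nonneg _) hp.2.le
    nlinarith

lemma rho_anti (hm : IsReg d m) {K' : ℝ} (hKK : K ≤ K') {p : ℂ × ℂ} (hp : p ∈ Bidisc) :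
    rho m d K' p ≤ rho m d K p := by
  unfold rho
  have h1 : ‖p.1‖ ^ 2 ≤ 1 := pow_le_one₀ (norm_nonneg _) hp.1.le
  have h2 : ‖p.2‖ ^ 2 ≤ 1 := pow_le_one₀ (norm_nonneg _) hp.2.le
  have h3 : K' * (‖p.1‖ ^ 2 - 1) ≤ K * (‖p.1‖ ^ 2 - 1) := by nlinarith
  have h4 : K' * (‖p.2‖ ^ 2 - 1) ≤ K * (‖p.2‖ ^ 2 - 1) := by nlinarith
  linarith [hm.phi_mono h3 h4]

lemma smooth_rho (hm : IsReg d m) (hT3 : Stmt_T3) : ContDiff ℝ ∞ (rho m d K) := by
  have h1 := hT3.2.1.1.smooth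
  have h2 := hT3.2.1.2.1.smooth
  unfold rho
  exact ((contDiff_const.mul h2).add (hm.smooth.comp
    ((contDiff_const.mul h1).sub (contDiff_const.mul h2)))).add contDiff_const

lemma LPos_rho (hm : IsReg d m) (hT2 : Stmt_T2) (hT3 : Stmt_T3) (hK : 0 ≤ K) (p : ℂ × ℂ) :
    LPos (rho m d K) p := by
  have h1 := hT3.2.1.1
  have h2 := hT3.2.1.2.1
  have h3 := hT2 m (fun q => K * (‖q.2‖ ^ 2 - 1)) (fun q => K * (‖q.1‖ ^ 2 - 1)) p hm.smooth
    hm.deriv_nonneg hm.deriv_le hm.convex (contDiff_const.mul h2.smooth).contDiffAt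
    (contDiff_const.mul h1.smooth).contDiffAt (LPos_const_mul h2.smooth hK (h2.pos p))
    (LPos_const_mul h1.smooth hK (h1.pos p))
  exact LPos_add_const (-d) h3

/-- near the complement of `Poly t` the function `ρ_K` is larger than `-2 d` -/
lemma rho_near (hm : IsReg d m) (hK : 0 ≤ K) {t : ℝ} (ht : 0 ≤ t) (htK : K * (1 - t ^ 2) < d)
    {p : ℂ × ℂ} (hp : p ∉ Poly t) : ∀ᶠ q in 𝓝 p, -2 * d < rho m d K q := by
  have hor : t ≤ ‖p.1‖ ∨ t ≤ ‖p.2‖ := by
    by_contra hcon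
    push Not at hcon
    exact hp hcon
  rcases hor with h | h
  · have hc : Continuous (fun q : ℂ × ℂ => K * (1 - ‖q.1‖ ^ 2)) := by fun_prop
    have h1 : K * (1 - ‖p.1‖ ^ 2) < d := by
      have : t ^ 2 ≤ ‖p.1‖ ^ 2 := by gcongr
      nlinarith
    filter_upwards [hc.continuousAt.eventually_lt_const h1] with q hq
    have := rho_ge1 (K := K) hm q
    nlinarith
  · have hc : Continuous (fun q : ℂ × ℂ => K * (1 - ‖q.2‖ ^ 2)) := by fun_prop
    have h1 : K * (1 - ‖p.2‖ ^ 2) < d := by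
      have : t ^ 2 ≤ ‖p.2‖ ^ 2 := by gcongr
      nlinarith
    filter_upwards [hc.continuousAt.eventually_lt_const h1] with q hq
    have := rho_ge2 (K := K) hm q
    nlinarith

end rho

section glue

variable {m : ℝ → ℝ} {d M : ℝ} {U : ℂ × ℂ → EReal} {v : ℂ × ℂ → ℝ} {a K r t ρ : ℝ}

lemma Good.d_pos (h : Good d M U v a K r t ρ) : 0 < d := by
  have := h.a_pos; have := h.a_le; linarith

lemma Good.r_pos (h : Good d M U v a K r t ρ) : 0 < r := by linarith [h.r_ge]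

lemma Good.t_pos (h : Good d M U v a K r t ρ) : 0 < t := by linarith [h.r_ge, h.r_lt]

lemma glue_pos {p : ℂ × ℂ} (hp : p ∈ Poly t) :
    glue m d K t a v p = rho m d K p + m (v p + (a - 4 * d) - rho m d K p) := if_pos hp

lemma glue_neg {p : ℂ × ℂ} (hp : p ∉ Poly t) : glue m d K t a v p = rho m d K p := if_neg hp

lemma Good.inner (h : Good d M U v a K r t ρ) (hm : IsReg d m) (hT3 : Stmt_T3) {p : ℂ × ℂ}
    (hp : p ∈ PD r r) : glue m d K t a v =ᶠ[𝓝 p] fun q => v q + (a - 4 * d) := by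
  have hd := h.d_pos
  have hpt : p ∈ Poly t := PD_subset_Poly h.r_lt hp
  have hpρ : p ∈ Poly ρ := Poly_subset_Poly h.t_lt.le hpt
  have hvc : ContinuousAt v p := (contDiffAt_of_Poly h.smooth hpρ).continuousAt
  have hrc : Continuous (rho m d K) := (smooth_rho hm hT3).continuous
  have hlt : d < v p + (a - 4 * d) - rho m d K p := by
    have h1 := h.bdd p hpρ
    have h2 : rho m d K p ≤ -(K * (1 - r ^ 2)) := by
      refine (rho_le hm p).trans (max_le ?_ ?_)
      · have h3 : ‖p.1‖ ^ 2 ≤ r ^ 2 := by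
          have := hp.1
          gcongr
        nlinarith [h.K_pos]
      · have h3 : ‖p.2‖ ^ 2 ≤ r ^ 2 := by
          have := hp.2
          gcongr
        nlinarith [h.K_pos]
    linarith [h.a_pos]
  have hev : ∀ᶠ q in 𝓝 p, d < v q + (a - 4 * d) - rho m d K q :=
    ((hvc.add continuousAt_const).sub hrc.continuousAt).eventually_const_lt hlt
  filter_upwards [hev, (isOpen_Poly t).mem_nhds hpt] with q hq hqt
  rw [glue_pos hqt, hm.id _ hq.le]
  ring

lemma Good.outer (h : Good d M U v a K r t ρ) (hm : IsReg d m) {p : ℂ × ℂ}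
    (hp : p ∉ Poly t) : glue m d K t a v =ᶠ[𝓝 p] rho m d K := by
  have hd := h.d_pos
  filter_upwards [rho_near hm h.K_pos.le h.t_pos.le h.t_sq hp] with q hq
  by_cases hqt : q ∈ Poly t
  · rw [glue_pos hqt, hm.zero _ ?_, add_zero]
    have := h.le q (Poly_subset_PD t hqt)
    have := h.a_le
    linarith
  · exact glue_neg hqt

lemma Good.mid (h : Good d M U v a K r t ρ) {p : ℂ × ℂ} (hp : p ∈ Poly t) :
    glue m d K t a v =ᶠ[𝓝 p] fun q => rho m d K q + m (v q + (a - 4 * d) - rho m d K q) := by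
  filter_upwards [(isOpen_Poly t).mem_nhds hp] with q hq
  exact glue_pos hq

lemma Good.spsh (h : Good d M U v a K r t ρ) (hm : IsReg d m) (hT2 : Stmt_T2) (hT3 : Stmt_T3) :
    SPsh (glue m d K t a v) := by
  have hrs : ContDiff ℝ ∞ (rho m d K) := smooth_rho hm hT3
  constructor
  · rw [contDiff_iff_contDiffAt]
    intro p
    by_cases hp : p ∈ Poly t
    · have hpρ : p ∈ Poly ρ := Poly_subset_Poly h.t_lt.le hp
      have hv := contDiffAt_of_Poly h.smooth hpρ
      refine ContDiffAt.congr_of_eventuallyEq ?_ (h.mid hp)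
      exact hrs.contDiffAt.add (hm.smooth.contDiffAt.comp p
        ((hv.add contDiffAt_const).sub hrs.contDiffAt))
    · exact hrs.contDiffAt.congr_of_eventuallyEq (h.outer hm hp)
  · intro p
    by_cases hp : p ∈ Poly t
    · have hpρ : p ∈ Poly ρ := Poly_subset_Poly h.t_lt.le hp
      have hv := contDiffAt_of_Poly h.smooth hpρ
      rw [LPos_congr (h.mid hp)]
      exact hT2 m (rho m d K) (fun q => v q + (a - 4 * d)) p hm.smooth hm.deriv_nonneg
        hm.deriv_le hm.convex hrs.contDiffAt (hv.add contDiffAt_const)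
        (LPos_rho hm hT2 hT3 h.K_pos.le p) (LPos_add_const _ (h.pos p hpρ))
    · rw [LPos_congr (h.outer hm hp)]
      exact LPos_rho hm hT2 hT3 h.K_pos.le p

lemma Good.dH_eq (h : Good d M U v a K r t ρ) (hm : IsReg d m) (hT3 : Stmt_T3) {p : ℂ × ℂ}
    (hp : p ∈ PD r r) : dH (glue m d K t a v) p = dH v p := by
  rw [dH_congr (h.inner hm hT3 hp), dH_add_const]

lemma Good.adm (h : Good d M U v a K r t ρ) (hm : IsReg d m) (hT2 : Stmt_T2) (hT3 : Stmt_T3) :
    Adm (5 * d) M (glue m d K t a v) := by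
  have hd := h.d_pos
  have hs := h.spsh hm hT2 hT3
  have hlev : ∀ p : ℂ × ℂ, glue m d K t a v p ≤ -(5 * d) → p ∈ PD r r := by
    intro p hp
    by_contra hcon
    by_cases hpt : p ∈ Poly t
    · have hpρ : p ∈ Poly ρ := Poly_subset_Poly h.t_lt.le hpt
      have h1 := h.low p hpρ hcon
      have h2 := (le_max_left _ _).trans (hm.ge (v p + (a - 4 * d) - rho m d K p))
      rw [glue_pos hpt] at hp
      linarith [h.a_pos]
    · have h1 := (rho_near hm h.K_pos.le h.t_pos.le h.t_sq hpt).self_of_nhds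
      rw [glue_neg hpt] at hp
      linarith
  refine ⟨hs, ?_, ⟨r, by linarith [h.r_lt, h.t_lt, h.ρ_lt], hlev⟩, ?_, ?_⟩
  · intro p hp
    by_cases hpt : p ∈ Poly t
    · rw [glue_pos hpt]
      have h0 := rho_nonpos hm h.K_pos.le hp
      have h1 := h.le p (Poly_subset_PD t hpt)
      have h2 := h.a_le
      by_cases hx : v p + (a - 4 * d) - rho m d K p ≤ -d
      · rw [hm.zero _ hx, add_zero]
        exact h0
      · push Not at hx
        have h3 := hm.le (v p + (a - 4 * d) - rho m d K p)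
        rcases max_cases (v p + (a - 4 * d) - rho m d K p) 0 with ⟨h4, h5⟩ | ⟨h4, h5⟩
        · rw [h4] at h3
          linarith
        · rw [h4] at h3
          linarith
    · rw [glue_neg hpt]
      exact rho_nonpos hm h.K_pos.le hp
  · have hcont : Continuous (dH (glue m d K t a v)) := (cd_dH hs.smooth).continuous
    have hint : IntegrableOn (dH (glue m d K t a v)) (PD r r) :=
      hcont.continuousOn.integrableOn_compact (isCompact_PD r r)
    calc ∫ p in {p | glue m d K t a v p ≤ -(5 * d)}, dH (glue m d K t a v) p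
        ≤ ∫ p in PD r r, dH (glue m d K t a v) p := by
          refine setIntegral_mono_set hint ?_ ?_
          · exact Eventually.of_forall fun p => (hs.pos p).2.2
          · exact (show {p | glue m d K t a v p ≤ -(5 * d)} ⊆ PD r r from hlev).eventuallyLE
      _ = ∫ p in PD r r, dH v p :=
          setIntegral_congr_fun (measurableSet_PD r r) fun p hp => h.dH_eq hm hT3 hp
      _ ≤ M := h.mass
  · intro p h1 h2
    have hp : p ∈ PD (3 / 4) (3 / 4) := ⟨h1, h2⟩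
    have hpr : p ∈ PD r r := PD_subset_PD h.r_ge.le hp
    rw [(h.inner hm hT3 hpr).eq_of_nhds]
    have := h.deep p hp
    have := h.a_le
    linarith

/-- comparison of two members of the family -/
lemma Good.compare (h : Good d M U v a K r t ρ) (hm : IsReg d m)
    {U' : ℂ × ℂ → EReal} {v' : ℂ × ℂ → ℝ} {a' K' r' t' ρ' : ℝ}
    (h' : Good d M U' v' a' K' r' t' ρ') (hK : K ≤ K') (ht : t ≤ t')
    (hv : ∀ p ∈ Poly t, v' p + a' ≤ v p + a) :
    ∀ p ∈ Bidisc, glue m d K' t' a' v' p ≤ glue m d K t a v p := by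
  intro p hp
  have hrho := rho_anti hm hK hp
  by_cases hpt : p ∈ Poly t
  · have hpt' : p ∈ Poly t' := Poly_subset_Poly ht hpt
    rw [glue_pos hpt, glue_pos hpt']
    have h1 : v' p + (a' - 4 * d) ≤ v p + (a - 4 * d) := by linarith [hv p hpt]
    exact hm.phi_mono h1 hrho
  · rw [glue_neg hpt]
    by_cases hpt' : p ∈ Poly t'
    · rw [glue_pos hpt']
      have h1 := hm.phi_mono (x := v' p + (a' - 4 * d)) le_rfl hrho
      have h2 := (rho_near hm h.K_pos.le h.t_pos.le h.t_sq hpt).self_of_nhds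
      have h3 := h'.le p (Poly_subset_PD t' hpt')
      have h4 := h'.a_le
      have h5 : m (v' p + (a' - 4 * d) - rho m d K p) = 0 := hm.zero _ (by linarith)
      rw [h5, add_zero] at h1
      exact h1
    · rw [glue_neg hpt']
      exact hrho

end glue

end BlockC
end CMA
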