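import Pool.Agent.Work.MP_4eb3f9_an_helper43.Nontriv

/-!
# MP_4eb3f9_an, block C: extraction of an admissible family
-/

set_option autoImplicit false

open Complex MeasureTheory Filter Topology Set
open scoped ContDiff ComplexOrder

namespace CMA
namespace BlockC

lemma integral_lebDirac (θ : ℂ × ℂ → ℝ) (hθ : Continuous θ) :
    ∫ p, θ p ∂lebDirac = ∫ z in Metric.ball (0 : ℂ) 1, θ (z, 0) := by
  unfold lebDirac
  rw [Measure.prod_dirac, integral_map (by fun_prop) hθ.aestronglyMeasurable]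

/-- if the bounded psh function `U` vanishes identically then so does its Monge-Ampere measure
(tested against one bump function) -/
lemma integral_eq_zero (hI2 : Stmt_I2) (θ : ContDiffBump (0 : ℂ × ℂ)) (hθr : θ.rOut = 1 / 2)
    {U : ℂ × ℂ → EReal} {ν : Measure (ℂ × ℂ)} (hE : InE0 U ν) (h0 : ∀ p ∈ Bidisc, U p = 0) :
    ∫ p, θ p ∂ν = 0 := by
  obtain ⟨C, hC, hcln⟩ := cln hI2 θ hθr
  obtain ⟨ρs, v, hmono, hρ, hρlim, hsm, hpsd, hdec, hlim, hMA⟩ := hE.isMA
  have htB : tsupport θ ⊆ Bidisc := by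
    rw [θ.tsupport_eq, hθr, closedBall_eq_PD]
    exact PD_subset_Poly (by norm_num)
  have hMAθ := hMA θ θ.continuous θ.hasCompactSupport htB
  obtain ⟨k0, hk0⟩ := (hρlim.eventually_const_lt (show (3 / 4 : ℝ) < 1 by norm_num)).exists
  have hpi := Real.pi_pos
  have key : ∀ ε : ℝ, 0 < ε → |∫ p, θ p ∂ν| ≤ 2 / Real.pi ^ 2 * (C * ε ^ 2) := by
    intro ε hε
    obtain ⟨k1, hk1, hv1⟩ := dini_v hmono hρ hsm hdec hlim (k0 := k0) (t := 3 / 4)
      (g := fun _ => ε) hk0 continuousOn_const (fun p hp => by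
        rw [h0 p (PD_subset_Poly (by norm_num) hp)]
        exact_mod_cast hε)
    refine le_of_tendsto hMAθ.abs ?_
    filter_upwards [eventually_ge_atTop k1] with k hk
    have hρk : 3 / 4 < ρs k := lt_of_lt_of_le hk0 (hmono (le_trans hk1 hk))
    have h1 := hcln (v k) (ρs k) ε hρk (hsm k) (fun p hp => LPos_of_psd (hpsd k p hp)) hε.le
      (fun p hp => by
        refine ⟨?_, (hv1 k hk p hp).le⟩
        have h2 := le_of_decreasing hmono hρ hdec hlim k (PD_subset_Poly hρk hp)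
        rw [h0 p (PD_subset_Poly (by norm_num) hp)] at h2
        exact_mod_cast h2)
    have e : ∫ p, θ p * maDensity (v k) p = 2 / Real.pi ^ 2 * ∫ p, θ p * dH (v k) p := by
      rw [integral_maDensity]
      field_simp
    rw [e, abs_mul, abs_of_pos (by positivity : (0:ℝ) < 2 / Real.pi ^ 2)]
    gcongr
  have h2 : Tendsto (fun ε : ℝ => 2 / Real.pi ^ 2 * (C * ε ^ 2)) (𝓝[>] 0) (𝓝 0) := by
    have : Tendsto (fun ε : ℝ => 2 / Real.pi ^ 2 * (C * ε ^ 2)) (𝓝 0)
        (𝓝 (2 / Real.pi ^ 2 * (C * 0 ^ 2))) := by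
      apply Continuous.tendsto
      fun_prop
    simp only [ne_eq, OfNat.ofNat_ne_zero, not_false_eq_true, zero_pow, mul_zero] at this
    exact this.mono_left nhdsWithin_le_nhds
  have h3 : |∫ p, θ p ∂ν| ≤ 0 := ge_of_tendsto h2 (by
    filter_upwards [self_mem_nhdsWithin] with ε hε
    exact key ε hε)
  exact abs_nonpos_iff.mp h3

lemma exists_neg (hI2 : Stmt_I2) {U : ℕ → ℂ × ℂ → EReal} {ν : ℕ → Measure (ℂ × ℂ)}
    (hE : ∀ j, InE0 (U j) (ν j)) (hV : VagueLim ν lebDirac) : ∃ j, ∃ p ∈ Bidisc, U j p < 0 := by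
  by_contra hcon
  push Not at hcon
  let θ : ContDiffBump (0 : ℂ × ℂ) := ⟨1 / 4, 1 / 2, by norm_num, by norm_num⟩
  have htB : tsupport θ ⊆ Bidisc := by
    rw [θ.tsupport_eq, closedBall_eq_PD]
    exact PD_subset_Poly (by norm_num)
  have h1 := hV θ θ.continuous θ.hasCompactSupport htB
  have h2 : ∀ j, ∫ p, θ p ∂(ν j) = 0 := fun j => integral_eq_zero hI2 θ rfl (hE j) fun p hp =>
    le_antisymm ((hE j).psh.nonpos p hp) (hcon j p hp)
  simp only [h2] at h1
  have h3 : ∫ p, θ p ∂lebDirac = 0 := tendsto_nhds_unique h1 tendsto_const_nhds |>.symm ▸ rfl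
  rw [integral_lebDirac θ θ.continuous] at h3
  have hcont : Continuous (fun z : ℂ => θ (z, (0 : ℂ))) := θ.continuous.comp (by fun_prop)
  have hint : IntegrableOn (fun z : ℂ => θ (z, (0 : ℂ))) (Metric.ball (0 : ℂ) 1) := by
    refine (hcont.continuousOn.integrableOn_compact
      (isCompact_closedBall (0 : ℂ) 1)).mono_set Metric.ball_subset_closedBall
  have h4 : 0 < ∫ z in Metric.ball (0 : ℂ) 1, θ (z, (0 : ℂ)) := by
    have h5 : ∫ z in Metric.ball (0 : ℂ) (1 / 4), (1 : ℝ) ≤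
        ∫ z in Metric.ball (0 : ℂ) 1, θ (z, (0 : ℂ)) := by
      calc ∫ z in Metric.ball (0 : ℂ) (1 / 4), (1 : ℝ)
          = ∫ z in Metric.ball (0 : ℂ) (1 / 4), θ (z, (0 : ℂ)) := by
            refine setIntegral_congr_fun Metric.isOpen_ball.measurableSet fun z hz => ?_
            refine (θ.one_of_mem_closedBall ?_).symm
            rw [closedBall_eq_PD]
            rw [Metric.mem_ball, dist_zero_right] at hz
            exact ⟨hz.le, by simpa using θ.rIn_pos.le⟩
        _ ≤ _ := setIntegral_mono_set hint (Eventually.of_forall fun z => θ.nonneg)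
            (Metric.ball_subset_ball (by norm_num)).eventuallyLE
    refine lt_of_lt_of_le ?_ h5
    rw [setIntegral_const, smul_eq_mul, mul_one]
    refine ENNReal.toReal_pos ?_ ?_
    · exact (Metric.measure_ball_pos volume _ (by norm_num)).ne'
    · exact measure_ball_lt_top.ne
  exact h4.ne' h3

theorem stmt_C (hT1 : Stmt_T1) (hT2 : Stmt_T2) (hT3 : Stmt_T3) (hI2 : Stmt_I2) : Stmt_C := by
  intro hMain
  rintro ⟨u, -, U, ν, hE, hmono, -, ⟨C, hmass⟩, hV⟩
  have hpi := Real.pi_pos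
  obtain ⟨j0, hj0⟩ := exists_neg hI2 hE hV
  have hneg := stmt_C1 (U j0) (hE j0).psh hj0
  have hPB : PD (3 / 4) (3 / 4) ⊆ Bidisc := PD_subset_Poly (by norm_num)
  -- the constant
  obtain ⟨c, hc0, hc⟩ : ∃ c : ℝ, 0 < c ∧ ∀ p ∈ PD (3 / 4) (3 / 4), U j0 p < ((-c : ℝ) : EReal) := by
    obtain ⟨q, hq, hmax⟩ := UpperSemicontinuousOn.exists_isMaxOn
      (s := PD (3 / 4) (3 / 4)) ⟨0, by simp [PD]; norm_num⟩ (isCompact_PD _ _)
      ((hE j0).psh.usc.mono hPB)
    obtain ⟨c, h1, h2⟩ := EReal.exists_between_coe_real (hneg q (hPB hq))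
    have h2' : c < 0 := by exact_mod_cast h2
    refine ⟨-c, by linarith, fun p hp => ?_⟩
    rw [neg_neg]
    exact lt_of_le_of_lt (hmax hp) h1
  set d : ℝ := c / 50 with hd
  have hd0 : 0 < d := by positivity
  have hdeep0 : ∀ p ∈ PD (3 / 4) (3 / 4), U j0 p < ((-50 * d : ℝ) : EReal) := by
    intro p hp
    have : -50 * d = -c := by rw [hd]; ring
    rw [this]
    exact hc p hp
  have hmono' : ∀ j ≥ j0, ∀ p ∈ Bidisc, U j p ≤ U j0 p := by
    intro j hj p hp
    induction j, hj using Nat.le_induction with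
    | base => exact le_rfl
    | succ l hl ih => exact (hmono l p hp).trans ih
  have hmono2 : ∀ i j, i ≤ j → ∀ p ∈ Bidisc, U j p ≤ U i p := by
    intro i j hj p hp
    induction j, hj using Nat.le_induction with
    | base => exact le_rfl
    | succ l hl ih => exact (hmono l p hp).trans ih
  have hdeep : ∀ j ≥ j0, ∀ p ∈ PD (3 / 4) (3 / 4), U j p < ((-50 * d : ℝ) : EReal) :=
    fun j hj p hp => lt_of_le_of_lt (hmono' j hj p (hPB hp)) (hdeep0 p hp)
  obtain ⟨m, m1, m2, m3, m4, m5, m6, m7, m8⟩ := hT1.2 d hd0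
  have hm : IsReg d m := ⟨m1, m2, m3, m4, m5, m6, m7, m8⟩
  set C' : ℝ := max C 0 with hC'
  have hC0 : 0 ≤ C' := le_max_right _ _
  have hmass' : ∀ j, ν j Bidisc ≤ ENNReal.ofReal C' := fun j =>
    (hmass j).trans (ENNReal.ofReal_le_ofReal (le_max_left _ _))
  set M : ℝ := Real.pi ^ 2 / 2 * (C' + 1) with hM
  -- the family
  let S : Set (ℂ × ℂ → ℝ) := {f | ∃ j ≥ j0, ∃ (v : ℂ × ℂ → ℝ) (a K r t ρ : ℝ),
    Good d M (U j) v a K r t ρ ∧ f = glue m d K t a v}
  refine hMain (5 * d) M (Real.pi ^ 2 / 2) S (by positivity) (by positivity) (by positivity)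
    ?_ ?_ ?_
  · -- nonempty
    obtain ⟨v, K, r, t, ρ, hG, -⟩ := select (hE j0) hC0 (hmass' j0) hd0 hdeep0 (K0 := 1)
      (t0 := 0) (by norm_num) (a := d / 2) (by positivity) le_rfl (g := fun _ => 1)
      continuousOn_const (fun p hp => by
        have hpB : p ∈ Bidisc := PD_subset_Poly (by norm_num) hp
        refine lt_of_le_of_lt ((hE j0).psh.nonpos p hpB) ?_
        exact_mod_cast zero_lt_one) (θ := fun _ => 0) continuous_const
      HasCompactSupport.zero (by simp [tsupport]) (ε := 1) one_pos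
    exact ⟨_, j0, le_rfl, v, d / 2, K, r, t, ρ, hG, rfl⟩
  · rintro f ⟨j, hj, v, a, K, r, t, ρ, hG, rfl⟩
    exact hG.adm hm hT2 hT3
  · rintro f ⟨j, hj, v, a, K, r, t, ρ, hG, rfl⟩ θ hθ hθs hθB ε hε
    -- choice of the index
    have hV' := hV θ hθ hθs hθB
    have hev : ∀ᶠ i in atTop, |(∫ p, θ p ∂(ν i)) - ∫ p, θ p ∂lebDirac| < 2 / Real.pi ^ 2 * (ε / 2) := by
      have := Metric.tendsto_nhds.mp hV' (2 / Real.pi ^ 2 * (ε / 2)) (by positivity)
      simpa [Real.dist_eq] using this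
    obtain ⟨i, hi1, hi2⟩ := (hev.and (eventually_ge_atTop j)).exists
    have hij0 : i ≥ j0 := le_trans hj hi2
    have htB : PD t t ⊆ Bidisc := PD_subset_Poly (hG.t_lt.trans hG.ρ_lt)
    have htρ : PD t t ⊆ Poly ρ := PD_subset_Poly hG.t_lt
    have ha := hG.a_pos
    obtain ⟨v', K', r', t', ρ', hG', hKK, htt, hvv, hsup, hapx⟩ := select (hE i) hC0 (hmass' i) hd0
      (hdeep i hij0) (K0 := K) (t0 := t) (hG.t_lt.trans hG.ρ_lt) (a := a / 2) (by positivity)
      (by linarith [hG.a_le]) (g := fun p => v p + a / 2)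
      (((hG.smooth.continuousOn).mono htρ).add continuousOn_const) (fun p hp => by
        have h1 : U i p ≤ (v p : EReal) := (hmono2 j i hi2 p (htB hp)).trans (hG.ge p (htρ hp))
        refine lt_of_le_of_lt h1 ?_
        exact_mod_cast (by linarith : v p < v p + a / 2)) hθ hθs hθB (ε := ε / 2) (by positivity)
    refine ⟨glue m d K' t' (a / 2) v', ⟨i, hij0, v', a / 2, K', r', t', ρ', hG', rfl⟩, ?_, ?_⟩
    · refine hG.compare hm hG' hKK htt fun p hp => ?_
      have := hvv p (Poly_subset_PD t hp)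
      linarith
    · have e1 : ∫ p, θ p * dH (glue m d K' t' (a / 2) v') p = ∫ p, θ p * dH v' p := by
        congr 1
        funext p
        by_cases hp : p ∈ tsupport θ
        · rw [hG'.dH_eq hm hT3 (Poly_subset_PD _ (hsup hp))]
        · rw [image_eq_zero_of_notMem_tsupport hp, zero_mul, zero_mul]
      rw [e1, ← integral_lebDirac θ hθ]
      calc |(∫ p, θ p * dH v' p) - Real.pi ^ 2 / 2 * ∫ p, θ p ∂lebDirac|
          = |((∫ p, θ p * dH v' p) - Real.pi ^ 2 / 2 * ∫ p, θ p ∂(ν i)) +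
              Real.pi ^ 2 / 2 * ((∫ p, θ p ∂(ν i)) - ∫ p, θ p ∂lebDirac)| := by
            congr 1; ring
        _ ≤ |(∫ p, θ p * dH v' p) - Real.pi ^ 2 / 2 * ∫ p, θ p ∂(ν i)| +
              |Real.pi ^ 2 / 2 * ((∫ p, θ p ∂(ν i)) - ∫ p, θ p ∂lebDirac)| := abs_add_le _ _
        _ ≤ ε / 2 + Real.pi ^ 2 / 2 * (2 / Real.pi ^ 2 * (ε / 2)) := by
            rw [abs_mul, abs_of_pos (by positivity : (0:ℝ) < Real.pi ^ 2 / 2)]
            gcongr
        _ = ε := by
            field_simp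
            ring

end BlockC
end CMA
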