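import Pool.Agent.Work.MP_4eb3f9_an_helper43.Select

/-!
# MP_4eb3f9_an, block C: the approximating functions are not all zero
-/

set_option autoImplicit false

open Complex MeasureTheory Filter Topology Set
open scoped ContDiff ComplexOrder

namespace CMA
namespace BlockC

lemma closedBall_eq_PD (r : ℝ) : Metric.closedBall (0 : ℂ × ℂ) r = PD r r := by
  ext p
  simp [PD, Prod.norm_def]

lemma ball_eq_Poly (r : ℝ) : Metric.ball (0 : ℂ × ℂ) r = Poly r := by
  ext p
  simp [Poly, Prod.norm_def]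

lemma abs_mM_le {θ v : ℂ × ℂ → ℝ} {p : ℂ × ℂ} (hv : LPos v p) {A : ℝ}
    (hA : |hzz θ p| + |hww θ p| + |hP θ p| + |hQ θ p| ≤ A) :
    |mM θ v p| ≤ A * (hzz v p + hww v p) := by
  obtain ⟨h1, h2, h3⟩ := hv
  have hP1 : |hP v p| ≤ (hzz v p + hww v p) / 2 := by
    apply abs_le_of_sq_le_sq _ (by positivity)
    unfold dH at h3
    nlinarith [sq_nonneg (hzz v p - hww v p), sq_nonneg (hQ v p)]
  have hQ1 : |hQ v p| ≤ (hzz v p + hww v p) / 2 := by
    apply abs_le_of_sq_le_sq _ (by positivity)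
    unfold dH at h3
    nlinarith [sq_nonneg (hzz v p - hww v p), sq_nonneg (hP v p)]
  have e1 : |hww θ p * hzz v p| ≤ |hww θ p| * (hzz v p + hww v p) := by
    rw [abs_mul, abs_of_nonneg h1]
    gcongr
    linarith
  have e2 : |hzz θ p * hww v p| ≤ |hzz θ p| * (hzz v p + hww v p) := by
    rw [abs_mul, abs_of_nonneg h2]
    gcongr
    linarith
  have e3 : |hP θ p * hP v p| ≤ |hP θ p| * ((hzz v p + hww v p) / 2) := by
    rw [abs_mul]
    gcongr
  have e4 : |hQ θ p * hQ v p| ≤ |hQ θ p| * ((hzz v p + hww v p) / 2) := by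
    rw [abs_mul]
    gcongr
  calc |mM θ v p| ≤ |hww θ p * hzz v p| + |hzz θ p * hww v p| +
        2 * (|hP θ p * hP v p| + |hQ θ p * hQ v p|) := by
        unfold mM
        refine (abs_sub _ _).trans ?_
        rw [abs_mul, abs_two]
        gcongr
        · exact abs_add_le _ _
        · exact abs_add_le _ _
    _ ≤ (|hzz θ p| + |hww θ p| + |hP θ p| + |hQ θ p|) * (hzz v p + hww v p) := by
        nlinarith
    _ ≤ A * (hzz v p + hww v p) := by
        gcongr

lemma hzz_eq_zero {θ : ℂ × ℂ → ℝ} {p : ℂ × ℂ} (hp : p ∉ tsupport θ) :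
    hzz θ p = 0 ∧ hww θ p = 0 ∧ hP θ p = 0 ∧ hQ θ p = 0 := by
  have h0 : θ =ᶠ[𝓝 p] fun _ => (0 : ℝ) := by
    have h := (isClosed_tsupport θ).isOpen_compl.mem_nhds hp
    filter_upwards [h] with q hq
    exact image_eq_zero_of_notMem_tsupport hq
  have hpd : ∀ j k : Fin 4, pd j (pd k θ) p = 0 := by
    intro j k
    rw [pd_pd_congr h0]
    have : pd k (fun _ : ℂ × ℂ => (0 : ℝ)) = fun _ => 0 := by
      funext q; exact pd_const 0 k
    rw [this]
    exact pd_const 0 j
  refine ⟨?_, ?_, ?_, ?_⟩ <;> simp [hzz, hww, hP, hQ, hpd]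

lemma mM_eq_zero {θ v : ℂ × ℂ → ℝ} {p : ℂ × ℂ} (hp : p ∉ tsupport θ) : mM θ v p = 0 := by
  obtain ⟨h1, h2, h3, h4⟩ := hzz_eq_zero hp
  simp [mM, h1, h2, h3, h4]

/-- integration by parts twice -/
lemma ibp2 {θ v : ℂ × ℂ → ℝ} (hθ : ContDiff ℝ ∞ θ) (hv : ContDiff ℝ ∞ v)
    (hs : HasCompactSupport θ) (k : Fin 4) :
    ∫ p, θ p * pd k (pd k v) p = ∫ p, pd k (pd k θ) p * v p := by
  rw [ibp hθ (cd_pd hv k) hs k, ibp (cd_pd hθ k) hv (hcs_pd hs k) k, neg_neg]

lemma int4 {a b c e : ℂ × ℂ → ℝ} (ha : Integrable a) (hb : Integrable b) (hc : Integrable c)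
    (he : Integrable e) : ∫ p, (((a p + b p) + c p) + e p) / 4 =
      (((∫ p, a p) + (∫ p, b p)) + (∫ p, c p) + ∫ p, e p) / 4 := by
  have h1 : Integrable (fun p => a p + b p) := ha.add hb
  have h2 : Integrable (fun p => a p + b p + c p) := h1.add hc
  rw [integral_div, integral_add h2 he, integral_add h1 hc, integral_add ha hb]

lemma integral_hzz {θ v : ℂ × ℂ → ℝ} (hθ : ContDiff ℝ ∞ θ) (hv : ContDiff ℝ ∞ v)
    (hs : HasCompactSupport θ) :
    ∫ p, θ p * (hzz v p + hww v p) = ∫ p, (hzz θ p + hww θ p) * v p := by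
  have hi : ∀ k, Integrable (fun p => θ p * pd k (pd k v) p) := fun k =>
    integrable_of_cs (hθ.continuous.mul (cd_pd (cd_pd hv k) k).continuous) hs.mul_right
  have hi' : ∀ k, Integrable (fun p => pd k (pd k θ) p * v p) := fun k =>
    integrable_of_cs ((cd_pd (cd_pd hθ k) k).continuous.mul hv.continuous)
      ((hcs_pd (hcs_pd hs k) k).mul_right)
  have e1 : ∀ p, θ p * (hzz v p + hww v p) = (((θ p * pd 0 (pd 0 v) p + θ p * pd 1 (pd 1 v) p) +
      θ p * pd 2 (pd 2 v) p) + θ p * pd 3 (pd 3 v) p) / 4 := by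
    intro p; unfold hzz hww; ring
  have e2 : ∀ p, (hzz θ p + hww θ p) * v p = (((pd 0 (pd 0 θ) p * v p + pd 1 (pd 1 θ) p * v p) +
      pd 2 (pd 2 θ) p * v p) + pd 3 (pd 3 θ) p * v p) / 4 := by
    intro p; unfold hzz hww; ring
  simp_rw [e1, e2]
  rw [int4 (hi 0) (hi 1) (hi 2) (hi 3), int4 (hi' 0) (hi' 1) (hi' 2) (hi' 3),
    ibp2 hθ hv hs, ibp2 hθ hv hs, ibp2 hθ hv hs, ibp2 hθ hv hs]

/-- Chern-Levine-Nirenberg type estimate -/
lemma cln (hI2 : Stmt_I2) (θ : ContDiffBump (0 : ℂ × ℂ)) (hθr : θ.rOut = 1 / 2) :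
    ∃ C : ℝ, 0 ≤ C ∧ ∀ (v : ℂ × ℂ → ℝ) (ρ ε : ℝ), 3 / 4 < ρ → ContDiffOn ℝ ∞ v (Poly ρ) →
      (∀ p ∈ Poly ρ, LPos v p) → 0 ≤ ε → (∀ p ∈ PD (3 / 4) (3 / 4), 0 ≤ v p ∧ v p ≤ ε) →
      |∫ p, θ p * dH v p| ≤ C * ε ^ 2 := by
  -- bumps
  let θ2 : ContDiffBump (0 : ℂ × ℂ) := ⟨1 / 2, 9 / 16, by norm_num, by norm_num⟩
  let χ : ContDiffBump (0 : ℂ × ℂ) := ⟨5 / 8, 3 / 4, by norm_num, by norm_num⟩
  have sθ : ContDiff ℝ ∞ θ := θ.contDiff
  have sθ2 : ContDiff ℝ ∞ θ2 := θ2.contDiff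
  have sχ : ContDiff ℝ ∞ χ := χ.contDiff
  have cθ : HasCompactSupport θ := θ.hasCompactSupport
  have cθ2 : HasCompactSupport θ2 := θ2.hasCompactSupport
  have cχ : HasCompactSupport χ := χ.hasCompactSupport
  have tθ : tsupport θ = PD (1 / 2) (1 / 2) := by
    rw [θ.tsupport_eq, hθr, closedBall_eq_PD]
  have tχ : tsupport χ = PD (3 / 4) (3 / 4) := by
    rw [χ.tsupport_eq, closedBall_eq_PD]
  -- the constant A
  have hcontA : Continuous (fun p => |hzz θ p| + |hww θ p| + |hP θ p| + |hQ θ p|) := by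
    have h1 := (cd_hzz sθ).continuous
    have h2 := (cd_hww sθ).continuous
    have h3 := (cd_hP sθ).continuous
    have h4 := (cd_hQ sθ).continuous
    fun_prop
  obtain ⟨A, hA⟩ := (isCompact_PD (1 / 2) (1 / 2)).exists_bound_of_continuousOn hcontA.continuousOn
  set B : ℝ := ∫ p, |hzz θ2 p + hww θ2 p| with hB
  have hB0 : 0 ≤ B := integral_nonneg fun p => abs_nonneg _
  refine ⟨|A| * B, by positivity, fun v ρ ε hρ hv hpos hε hvε => ?_⟩
  -- the extension
  set w : ℂ × ℂ → ℝ := fun p => χ p * v p with hw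
  have hwv : ∀ p ∈ Poly (5 / 8), w =ᶠ[𝓝 p] v := by
    intro p hp
    filter_upwards [(isOpen_Poly (5 / 8)).mem_nhds hp] with q hq
    have : χ q = 1 := by
      apply χ.one_of_mem_closedBall
      rw [closedBall_eq_PD]
      exact Poly_subset_PD _ hq
    rw [hw]
    simp only [this, one_mul]
  have sw : ContDiff ℝ ∞ w := by
    rw [contDiff_iff_contDiffAt]
    intro p
    by_cases hp : p ∈ Poly ρ
    · exact sχ.contDiffAt.mul (contDiffAt_of_Poly hv hp)
    · have hpt : p ∉ tsupport χ := by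
        rw [tχ]
        exact fun h => hp (PD_subset_Poly hρ h)
      have h0 : w =ᶠ[𝓝 p] fun _ => (0 : ℝ) := by
        filter_upwards [(isClosed_tsupport χ).isOpen_compl.mem_nhds hpt] with q hq
        rw [hw]
        simp only [image_eq_zero_of_notMem_tsupport hq, zero_mul]
      exact contDiffAt_const.congr_of_eventuallyEq h0
  have cw : HasCompactSupport w := cχ.mul_right
  have hw0 : ∀ p, 0 ≤ w p ∧ w p ≤ ε := by
    intro p
    by_cases hp : p ∈ PD (3 / 4) (3 / 4)
    · obtain ⟨h1, h2⟩ := hvε p hp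
      have h3 : (0 : ℝ) ≤ χ p := χ.nonneg
      have h4 : χ p ≤ 1 := χ.le_one
      exact ⟨mul_nonneg h3 h1, by
        calc χ p * v p ≤ 1 * v p := by gcongr
          _ ≤ ε := by rw [one_mul]; exact h2⟩
    · have : χ p = 0 := image_eq_zero_of_notMem_tsupport (by rw [tχ]; exact hp)
      simp only [hw, this, zero_mul]
      exact ⟨le_rfl, hε⟩
  have hLw : ∀ p ∈ Poly (5 / 8), LPos w p := by
    intro p hp
    rw [LPos_congr (hwv p hp)]
    exact hpos p (Poly_subset_Poly (by linarith) hp)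
  have hsub : PD (1 / 2) (1 / 2) ⊆ Poly (5 / 8) := PD_subset_Poly (by norm_num)
  -- step A
  have e1 : 2 * ∫ p, θ p * dH v p = ∫ p, w p * mM θ w p := by
    rw [← (hI2 w w θ sw sw sθ cθ).2, ← integral_const_mul]
    congr 1
    funext p
    rw [mM_self]
    by_cases hp : p ∈ tsupport θ
    · rw [tθ] at hp
      rw [dH_congr (hwv p (hsub hp))]
      ring
    · rw [image_eq_zero_of_notMem_tsupport hp]
      ring
  -- step B
  have hB1 : ∀ p, |w p * mM θ w p| ≤ ε * |A| * (θ2 p * (hzz w p + hww w p)) := by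
    intro p
    by_cases hp : p ∈ tsupport θ
    · rw [tθ] at hp
      have hL := hLw p (hsub hp)
      have h2 : θ2 p = 1 := by
        apply θ2.one_of_mem_closedBall
        rw [closedBall_eq_PD]
        exact hp
      have h3 : |hzz θ p| + |hww θ p| + |hP θ p| + |hQ θ p| ≤ |A| := by
        have := hA p hp
        rw [Real.norm_of_nonneg (by positivity)] at this
        exact this.trans (le_abs_self A)
      have h4 := abs_mM_le hL h3
      have h6 : w p * |mM θ w p| ≤ ε * (|A| * (hzz w p + hww w p)) :=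
        mul_le_mul (hw0 p).2 h4 (abs_nonneg _) hε
      rw [h2, one_mul, abs_mul, abs_of_nonneg (hw0 p).1]
      linarith
    · rw [mM_eq_zero hp, mul_zero, abs_zero]
      by_cases hp2 : p ∈ Poly (5 / 8)
      · have h1 : (0 : ℝ) ≤ θ2 p := θ2.nonneg
        have h2 := (hLw p hp2).1
        have h3 := (hLw p hp2).2.1
        positivity
      · have : θ2 p = 0 := by
          apply image_eq_zero_of_notMem_tsupport
          rw [θ2.tsupport_eq, closedBall_eq_PD]
          exact fun h => hp2 (PD_subset_Poly (by norm_num) h)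
        rw [this, zero_mul, mul_zero]
  have i1 : Integrable (fun p => θ2 p * (hzz w p + hww w p)) :=
    integrable_of_cs (sθ2.continuous.mul ((cd_hzz sw).continuous.add (cd_hww sw).continuous))
      cθ2.mul_right
  -- step D
  have hD1 : ∫ p, θ2 p * (hzz w p + hww w p) ≤ ε * B := by
    rw [integral_hzz sθ2 sw cθ2, hB, ← integral_const_mul]
    have hcs : HasCompactSupport (fun p => hzz θ2 p + hww θ2 p) := by
      refine HasCompactSupport.intro cθ2 fun p hp => ?_
      obtain ⟨h1, h2, _⟩ := hzz_eq_zero hp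
      simp [h1, h2]
    have hcn : Continuous (fun p => hzz θ2 p + hww θ2 p) :=
      (cd_hzz sθ2).continuous.add (cd_hww sθ2).continuous
    refine integral_mono (integrable_of_cs (hcn.mul sw.continuous) hcs.mul_right)
      ((integrable_of_cs hcn hcs).abs.const_mul ε) (fun p => ?_)
    calc (hzz θ2 p + hww θ2 p) * w p ≤ |hzz θ2 p + hww θ2 p| * w p := by
          have := (hw0 p).1
          gcongr
          exact le_abs_self _
      _ ≤ |hzz θ2 p + hww θ2 p| * ε := by
          gcongr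
          exact (hw0 p).2
      _ = ε * |hzz θ2 p + hww θ2 p| := mul_comm _ _
  have h5 : |2 * ∫ p, θ p * dH v p| ≤ ε * |A| * (ε * B) := by
    rw [e1]
    calc |∫ p, w p * mM θ w p| ≤ ∫ p, |w p * mM θ w p| := abs_integral_le_integral_abs
      _ ≤ ∫ p, ε * |A| * (θ2 p * (hzz w p + hww w p)) := by
          refine integral_mono_of_nonneg (Eventually.of_forall fun p => abs_nonneg _)
            (i1.const_mul _) (Eventually.of_forall hB1)
      _ = ε * |A| * ∫ p, θ2 p * (hzz w p + hww w p) := integral_const_mul _ _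
      _ ≤ ε * |A| * (ε * B) := by gcongr
  rw [abs_mul, abs_two] at h5
  have h6 : 0 ≤ |A| * B * ε ^ 2 := by positivity
  nlinarith [abs_nonneg (∫ p, θ p * dH v p)]

end BlockC
end CMA
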