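import Pool.Agent.Work.MP_4eb3f9_an_helper43.Family

/-!
# MP_4eb3f9_an, block C: selection of the data
-/

set_option autoImplicit false

open Complex MeasureTheory Filter Topology Set
open scoped ContDiff ComplexOrder

namespace CMA
namespace BlockC

lemma integral_maDensity (θ v : ℂ × ℂ → ℝ) :
    ∫ p, θ p * dH v p = Real.pi ^ 2 / 2 * ∫ p, θ p * maDensity v p := by
  rw [← integral_const_mul]
  congr 1
  funext p
  rw [maDensity_eq]
  have := Real.pi_pos
  field_simp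

lemma le_of_decreasing {U : ℂ × ℂ → EReal} {ρ : ℕ → ℝ} {v : ℕ → ℂ × ℂ → ℝ} (hmono : Monotone ρ)
    (hρ : ∀ k, 0 < ρ k ∧ ρ k < 1) (hdec : ∀ k, ∀ p ∈ Poly (ρ k), v (k + 1) p ≤ v k p)
    (hlim : ∀ p ∈ Bidisc, Tendsto (fun k => ((v k p : ℝ) : EReal)) atTop (𝓝 (U p)))
    (k : ℕ) {p : ℂ × ℂ} (hp : p ∈ Poly (ρ k)) : U p ≤ (v k p : EReal) := by
  have hle : ∀ l ≥ k, v l p ≤ v k p := by
    intro l hl
    induction l, hl using Nat.le_induction with
    | base => exact le_rfl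
    | succ l hl ih => exact (hdec l p (Poly_subset_Poly (hmono hl) hp)).trans ih
  refine le_of_tendsto (hlim p (Poly_subset_Bidisc (hρ k).2.le hp)) ?_
  filter_upwards [eventually_ge_atTop k] with l hl
  exact_mod_cast hle l hl

/-- Dini's theorem for the regularising sequence -/
lemma dini_v {U : ℂ × ℂ → EReal} {ρ : ℕ → ℝ} {v : ℕ → ℂ × ℂ → ℝ} (hmono : Monotone ρ)
    (hρ : ∀ k, 0 < ρ k ∧ ρ k < 1) (hsm : ∀ k, ContDiffOn ℝ ∞ (v k) (Poly (ρ k)))
    (hdec : ∀ k, ∀ p ∈ Poly (ρ k), v (k + 1) p ≤ v k p)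
    (hlim : ∀ p ∈ Bidisc, Tendsto (fun k => ((v k p : ℝ) : EReal)) atTop (𝓝 (U p)))
    {k0 : ℕ} {t : ℝ} (hk0 : t < ρ k0) {g : ℂ × ℂ → ℝ} (hg : ContinuousOn g (PD t t))
    (hU : ∀ p ∈ PD t t, U p < (g p : EReal)) :
    ∃ k1 ≥ k0, ∀ k ≥ k1, ∀ p ∈ PD t t, v k p < g p := by
  have hsub : ∀ k ≥ k0, PD t t ⊆ Poly (ρ k) := fun k hk =>
    PD_subset_Poly (lt_of_lt_of_le hk0 (hmono hk))
  obtain ⟨k1, hk1, h⟩ := dini (isCompact_PD t t) (w := fun k p => v k p - g p) (k0 := k0)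
    (fun k hk => (((hsm k).continuousOn).mono (hsub k hk)).sub hg)
    (fun k hk p hp => by
      have := hdec k p (hsub k hk hp)
      linarith)
    (fun p hp => by
      have hpB : p ∈ Bidisc := Poly_subset_Bidisc (hρ k0).2.le (hsub k0 le_rfl hp)
      have h1 := (hlim p hpB).eventually_lt_const (hU p hp)
      obtain ⟨k, hk1, hk2⟩ := (h1.and (eventually_ge_atTop k0)).exists
      refine ⟨k, hk2, ?_⟩
      have : v k p < g p := by exact_mod_cast hk1
      linarith)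
  refine ⟨k1, hk1, fun k hk p hp => ?_⟩
  have := h k hk p hp
  linarith

lemma select {U : ℂ × ℂ → EReal} {ν : Measure (ℂ × ℂ)} (hE : InE0 U ν) {C : ℝ} (hC : 0 ≤ C)
    (hmass : ν Bidisc ≤ ENNReal.ofReal C) {d : ℝ} (hd : 0 < d)
    (hdeep : ∀ p ∈ PD (3 / 4) (3 / 4), U p < ((-50 * d : ℝ) : EReal))
    {K0 t0 : ℝ} (ht0 : t0 < 1) {a : ℝ} (ha : 0 < a) (had : a ≤ d / 2)
    {g : ℂ × ℂ → ℝ} (hg : ContinuousOn g (PD t0 t0)) (hgU : ∀ p ∈ PD t0 t0, U p < (g p : EReal))
    {θ : ℂ × ℂ → ℝ} (hθ : Continuous θ) (hθs : HasCompactSupport θ) (hθB : tsupport θ ⊆ Bidisc)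
    {ε : ℝ} (hε : 0 < ε) :
    ∃ (v : ℂ × ℂ → ℝ) (K r t ρ : ℝ), Good d (Real.pi ^ 2 / 2 * (C + 1)) U v a K r t ρ ∧
      K0 ≤ K ∧ t0 ≤ t ∧ (∀ p ∈ PD t0 t0, v p < g p) ∧ tsupport θ ⊆ Poly r ∧
      |(∫ p, θ p * dH v p) - Real.pi ^ 2 / 2 * ∫ p, θ p ∂ν| ≤ ε := by
  have hpi := Real.pi_pos
  obtain ⟨Cj, hCj⟩ := hE.bounded
  obtain ⟨rb, hrb1, hrb⟩ := hE.boundary (d / 2) (by linarith)
  obtain ⟨rθ, hrθ1, hrθ⟩ := exists_radius hθs hθB
  set r : ℝ := max (max rb rθ) (7 / 8) with hr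
  have hr1 : r < 1 := max_lt (max_lt hrb1 hrθ1) (by norm_num)
  have hr34 : 3 / 4 < r := lt_of_lt_of_le (by norm_num) (le_max_right _ _)
  have hrrb : rb ≤ r := (le_max_left _ _).trans (le_max_left _ _)
  have hrrθ : rθ ≤ r := (le_max_right _ _).trans (le_max_left _ _)
  have hr2 : 0 < 1 - r ^ 2 := by nlinarith
  set K : ℝ := max (max K0 1) ((|Cj| + 10 * d) / (1 - r ^ 2)) with hK
  have hKK0 : K0 ≤ K := (le_max_left _ _).trans (le_max_left _ _)
  have hK1 : 1 ≤ K := (le_max_right _ _).trans (le_max_left _ _)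
  have hKr : |Cj| + 10 * d ≤ K * (1 - r ^ 2) := by
    have : (|Cj| + 10 * d) / (1 - r ^ 2) ≤ K := le_max_right _ _
    rwa [div_le_iff₀ hr2] at this
  have hK0' : 0 < K := by linarith
  set t : ℝ := max (max ((r + 1) / 2) t0) (1 - d / (4 * K)) with ht
  have htr : r < t := lt_of_lt_of_le (by linarith) ((le_max_left _ _).trans (le_max_left _ _))
  have htt0 : t0 ≤ t := (le_max_right _ _).trans (le_max_left _ _)
  have ht1 : t < 1 := max_lt (max_lt (by linarith) ht0) (by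
    have : 0 < d / (4 * K) := by positivity
    linarith)
  have htK : K * (1 - t ^ 2) < d := by
    have h1 : 1 - d / (4 * K) ≤ t := le_max_right _ _
    have h2 : 1 - t ≤ d / (4 * K) := by linarith
    have h3 : (1 - t) * (4 * K) ≤ d := by rwa [le_div_iff₀ (by positivity)] at h2
    nlinarith
  obtain ⟨ρs, v, hmono, hρ, hρlim, hsm, hpsd, hdec, hlim, hMA⟩ := hE.isMA
  obtain ⟨k0, hk0⟩ := ((hρlim.eventually_const_lt ht1).and (eventually_ge_atTop 0)).exists
  have hk0 := hk0.1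
  have hPDB : ∀ p ∈ PD t t, p ∈ Bidisc := fun p hp =>
    ⟨lt_of_le_of_lt hp.1 ht1, lt_of_le_of_lt hp.2 ht1⟩
  -- Dini
  obtain ⟨ka, hka, hva⟩ := dini_v hmono hρ hsm hdec hlim (k0 := k0) (t := t)
    (g := fun _ => d / 2) hk0 continuousOn_const (fun p hp => by
      refine lt_of_le_of_lt (hE.psh.nonpos p (hPDB p hp)) ?_
      exact_mod_cast (by linarith : (0 : ℝ) < d / 2))
  obtain ⟨kb, hkb, hvb⟩ := dini_v hmono hρ hsm hdec hlim (k0 := k0) (t := 3 / 4)
    (g := fun _ => -50 * d) (by linarith) continuousOn_const hdeep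
  obtain ⟨kc, hkc, hvc⟩ := dini_v hmono hρ hsm hdec hlim (k0 := k0) (t := t0)
    (g := g) (by linarith) hg hgU
  -- masses
  set r1 : ℝ := (r + t) / 2 with hr1d
  have hrr1 : r < r1 := by rw [hr1d]; linarith
  have hr1t : r1 < t := by rw [hr1d]; linarith
  have hctB : tsupport (cutoff r r1) ⊆ Bidisc := (tsupport_cutoff hrr1).trans (fun p hp =>
    hPDB p (PD_subset_PD hr1t.le hp))
  have hmassfin : ν univ ≤ ENNReal.ofReal C := by
    have h1 : ν univ ≤ ν Bidisc + ν Bidiscᶜ := by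
      rw [← union_compl_self Bidisc]
      exact measure_union_le _ _
    rw [hE.support, add_zero] at h1
    exact h1.trans hmass
  have hfin : IsFiniteMeasure ν := ⟨hmassfin.trans_lt ENNReal.ofReal_lt_top⟩
  have hctν : ∫ p, cutoff r r1 p ∂ν ≤ C := by
    have h1 : ∫ p, cutoff r r1 p ∂ν ≤ ∫ p, (1 : ℝ) ∂ν := by
      refine integral_mono_of_nonneg (Eventually.of_forall fun p => cutoff_nonneg _ _ p)
        (integrable_const _) (Eventually.of_forall fun p => cutoff_le_one _ _ p)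
    refine h1.trans ?_
    rw [integral_const, smul_eq_mul, mul_one, Measure.real]
    exact ENNReal.toReal_le_of_le_ofReal hC hmassfin
  have hMAc := hMA (cutoff r r1) (continuous_cutoff _ _) (hasCompactSupport_cutoff hrr1) hctB
  have hMAθ := hMA θ hθ hθs hθB
  have hev1 : ∀ᶠ k in atTop, ∫ p, cutoff r r1 p * maDensity (v k) p < C + 1 :=
    hMAc.eventually_lt_const (by linarith)
  have hev2 : ∀ᶠ k in atTop, |(∫ p, θ p * maDensity (v k) p) - ∫ p, θ p ∂ν| <
      2 / Real.pi ^ 2 * ε := by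
    have := Metric.tendsto_nhds.mp hMAθ (2 / Real.pi ^ 2 * ε) (by positivity)
    simpa [Real.dist_eq] using this
  obtain ⟨k, hk1, hk2, hk3, hk4, hk5, hk6⟩ := (hev1.and (hev2.and ((eventually_ge_atTop k0).and
    ((eventually_ge_atTop ka).and ((eventually_ge_atTop kb).and
      (eventually_ge_atTop kc)))))).exists
  have htρ : t < ρs k := lt_of_lt_of_le hk0 (hmono hk3)
  have hge : ∀ p ∈ Poly (ρs k), U p ≤ (v k p : EReal) := fun p hp =>
    le_of_decreasing hmono hρ hdec hlim k hp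
  have hρB : ∀ p ∈ Poly (ρs k), p ∈ Bidisc := fun p hp => Poly_subset_Bidisc (hρ k).2.le hp
  refine ⟨v k, K, r, t, ρs k, ?_, hKK0, htt0, hvc k hk6, hrθ.trans (Poly_subset_Poly hrrθ), ?_⟩
  · refine ⟨ha, had, hK0', hr34, htr, htρ, (hρ k).2, htK, hsm k,
      fun p hp => LPos_of_psd (hpsd k p hp), hge, fun p hp => (hva k hk4 p hp).le,
      fun p hp => (hvb k hk5 p hp).le, ?_, ?_, ?_⟩
    · -- the mass bound
      have hsubr : PD r1 r1 ⊆ Poly (ρs k) := PD_subset_Poly (by linarith)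
      have hcd : ContinuousOn (dH (v k)) (PD r1 r1) := (continuousOn_dH (hsm k)).mono hsubr
      have hint := integrable_mul (continuous_cutoff r r1) (fun p hp => cutoff_eq_zero hrr1
        (fun h => hp (Poly_subset_PD r1 h))) hcd
      have hnn : ∀ p, 0 ≤ cutoff r r1 p * dH (v k) p := by
        intro p
        by_cases hp : p ∈ Poly r1
        · exact mul_nonneg (cutoff_nonneg _ _ _)
            (LPos_of_psd (hpsd k p (hsubr (Poly_subset_PD _ hp)))).2.2
        · rw [cutoff_eq_zero hrr1 hp, zero_mul]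
      calc ∫ p in PD r r, dH (v k) p = ∫ p in PD r r, cutoff r r1 p * dH (v k) p := by
            refine setIntegral_congr_fun (measurableSet_PD r r) fun p hp => ?_
            rw [cutoff_eq_one hrr1 hp, one_mul]
        _ ≤ ∫ p, cutoff r r1 p * dH (v k) p :=
            setIntegral_le_integral hint (Eventually.of_forall hnn)
        _ = Real.pi ^ 2 / 2 * ∫ p, cutoff r r1 p * maDensity (v k) p := integral_maDensity _ _
        _ ≤ Real.pi ^ 2 / 2 * (C + 1) := by gcongr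
    · intro p hp hpr
      have hor : rb ≤ ‖p.1‖ ∨ rb ≤ ‖p.2‖ := by
        by_contra hcon
        push Not at hcon
        exact hpr ⟨by linarith [hcon.1], by linarith [hcon.2]⟩
      have h1 := (hrb p (hρB p hp) hor).trans (hge p hp)
      have h2 : -(d / 2) ≤ v k p := by exact_mod_cast h1
      linarith
    · intro p hp
      have h1 := (hCj p (hρB p hp)).trans (hge p hp)
      have h2 : -Cj ≤ v k p := by exact_mod_cast h1
      have h3 := le_abs_self Cj
      linarith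
  · rw [integral_maDensity, ← mul_sub, abs_mul, abs_of_pos (by positivity : (0:ℝ) < Real.pi ^ 2 / 2)]
    calc Real.pi ^ 2 / 2 * |(∫ p, θ p * maDensity (v k) p) - ∫ p, θ p ∂ν|
        ≤ Real.pi ^ 2 / 2 * (2 / Real.pi ^ 2 * ε) := by gcongr
      _ = ε := by field_simp

end BlockC
end CMA
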