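import Pool.Agent.Work.MP_4eb3f9_an.Basic
import Pool.Agent.Work.MP_4eb3f9_an_helper43.C1

/-!
# MP_4eb3f9_an, block C: tools
-/

set_option autoImplicit false

open Complex MeasureTheory Filter Topology Set
open scoped ContDiff ComplexOrder

namespace CMA
namespace BlockC

/-! ### algebra of the complex Hessian -/

lemma pd_add_const (f : ℂ × ℂ → ℝ) (c : ℝ) (k : Fin 4) :
    pd k (fun q => f q + c) = pd k f := by
  funext p
  unfold pd
  rw [fderiv_add_const]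

lemma hzz_add_const (f : ℂ × ℂ → ℝ) (c : ℝ) : hzz (fun q => f q + c) = hzz f := by
  funext p; simp only [hzz, pd_add_const]

lemma hww_add_const (f : ℂ × ℂ → ℝ) (c : ℝ) : hww (fun q => f q + c) = hww f := by
  funext p; simp only [hww, pd_add_const]

lemma dH_add_const (f : ℂ × ℂ → ℝ) (c : ℝ) : dH (fun q => f q + c) = dH f := by
  funext p; simp only [dH, hzz, hww, hP, hQ, pd_add_const]

lemma LPos_add_const {f : ℂ × ℂ → ℝ} (c : ℝ) {p : ℂ × ℂ} (h : LPos f p) :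
    LPos (fun q => f q + c) p := by
  unfold LPos at *
  rwa [hzz_add_const, hww_add_const, dH_add_const]

lemma LPos_const_mul {f : ℂ × ℂ → ℝ} (hf : ContDiff ℝ ∞ f) {K : ℝ} (hK : 0 ≤ K) {p : ℂ × ℂ}
    (h : LPos f p) : LPos (fun q => K * f q) p := by
  have e : ∀ j k : Fin 4, pd j (pd k (fun q => K * f q)) p = K * pd j (pd k f) p := by
    intro j k
    rw [pd_const_mul K hf k, pd_const_mul K (cd_pd hf k) j]
  have ezz : hzz (fun q => K * f q) p = K * hzz f p := by simp only [hzz, e]; ring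
  have eww : hww (fun q => K * f q) p = K * hww f p := by simp only [hww, e]; ring
  have eP : hP (fun q => K * f q) p = K * hP f p := by simp only [hP, e]; ring
  have eQ : hQ (fun q => K * f q) p = K * hQ f p := by simp only [hQ, e]; ring
  have eD : dH (fun q => K * f q) p = K ^ 2 * dH f p := by
    simp only [dH, ezz, eww, eP, eQ]; ring
  obtain ⟨h1, h2, h3⟩ := h
  refine ⟨?_, ?_, ?_⟩
  · rw [ezz]; positivity
  · rw [eww]; positivity
  · rw [eD]; positivity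

lemma maDensity_eq (f : ℂ × ℂ → ℝ) (p : ℂ × ℂ) :
    maDensity f p = 2 / Real.pi ^ 2 * dH f p := by
  unfold maDensity cHess dH
  rw [Matrix.det_fin_two_of]
  congr 1
  simp
  ring

lemma LPos_of_psd {f : ℂ × ℂ → ℝ} {p : ℂ × ℂ} (h : (cHess f p).PosSemidef) : LPos f p := by
  have h0 := h.diag_nonneg (i := 0)
  have h1 := h.diag_nonneg (i := 1)
  have hd := h.det_nonneg
  refine ⟨?_, ?_, ?_⟩
  · simpa [cHess, Complex.le_def] using h0
  · simpa [cHess, Complex.le_def] using h1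
  · have hre := (Complex.le_def.mp hd).1
    have e := maDensity_eq f p
    unfold maDensity at e
    have hpi : (0 : ℝ) < 2 / Real.pi ^ 2 := by positivity
    have e2 : (cHess f p).det.re = dH f p := mul_left_cancel₀ hpi.ne' e
    rw [e2] at hre
    simpa using hre

/-! ### regularised maximum -/

/-- properties of the regularised positive part -/
structure IsReg (δ : ℝ) (m : ℝ → ℝ) : Prop where
  smooth : ContDiff ℝ ∞ m
  zero : ∀ x, x ≤ -δ → m x = 0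
  id : ∀ x, δ ≤ x → m x = x
  deriv_nonneg : ∀ x, 0 ≤ deriv m x
  deriv_le : ∀ x, deriv m x ≤ 1
  convex : ∀ x, 0 ≤ deriv (deriv m) x
  ge : ∀ x, max x 0 ≤ m x
  le : ∀ x, m x ≤ max x 0 + δ

lemma IsReg.mono {δ : ℝ} {m : ℝ → ℝ} (h : IsReg δ m) : Monotone m :=
  monotone_of_deriv_nonneg (h.smooth.differentiable (by simp)) h.deriv_nonneg

lemma IsReg.mono' {δ : ℝ} {m : ℝ → ℝ} (h : IsReg δ m) : Monotone (fun x => x - m x) := by
  have hd : Differentiable ℝ m := h.smooth.differentiable (by simp)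
  refine monotone_of_deriv_nonneg (by fun_prop) (fun x => ?_)
  rw [deriv_fun_sub (by fun_prop) (hd x), deriv_id'']
  linarith [h.deriv_le x]

/-- monotonicity of `y + m (x - y)` -/
lemma IsReg.phi_mono {δ : ℝ} {m : ℝ → ℝ} (h : IsReg δ m) {x x' y y' : ℝ} (hx : x' ≤ x)
    (hy : y' ≤ y) : y' + m (x' - y') ≤ y + m (x - y) := by
  have h1 : m (x' - y') ≤ m (x - y') := h.mono (by linarith)
  have h2 : (x - y) - m (x - y) ≤ (x - y') - m (x - y') := h.mono' (by linarith)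
  linarith

/-! ### compactness -/

lemma dini {X : Type*} [TopologicalSpace X] {K : Set X} (hK : IsCompact K) {w : ℕ → X → ℝ} {k0 : ℕ}
    (hc : ∀ k ≥ k0, ContinuousOn (w k) K) (hmono : ∀ k ≥ k0, ∀ x ∈ K, w (k + 1) x ≤ w k x)
    (hlim : ∀ x ∈ K, ∃ k ≥ k0, w k x < 0) : ∃ k1 ≥ k0, ∀ k ≥ k1, ∀ x ∈ K, w k x < 0 := by
  have hmono' : ∀ k ≥ k0, ∀ l ≥ k, ∀ x ∈ K, w l x ≤ w k x := by
    intro k hk l hl x hx
    induction l, hl using Nat.le_induction with
    | base => exact le_rfl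
    | succ l hl ih => exact (hmono l (le_trans hk hl) x hx).trans ih
  choose! κ hκ0 hκ using hlim
  have hnh : ∀ x ∈ K, {y | w (κ x) y < 0} ∈ 𝓝[K] x := by
    intro x hx
    exact (hc (κ x) (hκ0 x hx) x hx).eventually_lt_const (hκ x hx)
  obtain ⟨t, htK, ht⟩ := hK.elim_nhdsWithin_subcover _ hnh
  refine ⟨max k0 (t.sup κ), le_max_left _ _, fun k hk x hx => ?_⟩
  obtain ⟨y, hy, hxy⟩ := mem_iUnion₂.mp (ht hx)
  have h1 : κ y ≤ k := (Finset.le_sup hy).trans ((le_max_right _ _).trans hk)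
  exact lt_of_le_of_lt (hmono' (κ y) (hκ0 y (htK y hy)) k h1 x hx) hxy

lemma isCompact_PD (a b : ℝ) : IsCompact (PD a b) := by
  have : PD a b = Metric.closedBall (0 : ℂ) a ×ˢ Metric.closedBall (0 : ℂ) b := by
    ext p; simp [PD]
  rw [this]
  exact (isCompact_closedBall _ _).prod (isCompact_closedBall _ _)

lemma isClosed_PD (a b : ℝ) : IsClosed (PD a b) := (isCompact_PD a b).isClosed

lemma measurableSet_PD (a b : ℝ) : MeasurableSet (PD a b) := (isClosed_PD a b).measurableSet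

lemma PD_subset_Poly {r s : ℝ} (h : r < s) : PD r r ⊆ Poly s := by
  rintro p ⟨h1, h2⟩
  exact ⟨by linarith, by linarith⟩

lemma Poly_subset_Poly {r s : ℝ} (h : r ≤ s) : Poly r ⊆ Poly s := by
  rintro p ⟨h1, h2⟩
  exact ⟨by linarith, by linarith⟩

lemma Poly_subset_PD (r : ℝ) : Poly r ⊆ PD r r := by
  rintro p ⟨h1, h2⟩
  exact ⟨h1.le, h2.le⟩

lemma PD_subset_PD {r s : ℝ} (h : r ≤ s) : PD r r ⊆ PD s s := by
  rintro p ⟨h1, h2⟩
  exact ⟨by linarith, by linarith⟩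

lemma Poly_subset_Bidisc {r : ℝ} (h : r ≤ 1) : Poly r ⊆ Bidisc := Poly_subset_Poly h

lemma exists_radius {K : Set (ℂ × ℂ)} (hK : IsCompact K) (hsub : K ⊆ Bidisc) :
    ∃ r : ℝ, r < 1 ∧ K ⊆ Poly r := by
  rcases K.eq_empty_or_nonempty with rfl | hne
  · exact ⟨0, by norm_num, empty_subset _⟩
  · have hc : ContinuousOn (fun p : ℂ × ℂ => max ‖p.1‖ ‖p.2‖) K := by fun_prop
    obtain ⟨q, hq, hmax⟩ := hK.exists_isMaxOn hne hc
    have h1 := hsub hq
    have h2 : max ‖q.1‖ ‖q.2‖ < 1 := max_lt h1.1 h1.2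
    refine ⟨(max ‖q.1‖ ‖q.2‖ + 1) / 2, by linarith, fun p hp => ?_⟩
    have h3 : max ‖p.1‖ ‖p.2‖ ≤ max ‖q.1‖ ‖q.2‖ := hmax hp
    constructor
    · linarith [le_max_left ‖p.1‖ ‖p.2‖]
    · linarith [le_max_right ‖p.1‖ ‖p.2‖]

/-! ### continuity and integrability -/

lemma contDiffAt_of_Poly {v : ℂ × ℂ → ℝ} {ρ : ℝ} (hv : ContDiffOn ℝ ∞ v (Poly ρ)) {p : ℂ × ℂ}
    (hp : p ∈ Poly ρ) : ContDiffAt ℝ ∞ v p :=
  hv.contDiffAt ((isOpen_Poly ρ).mem_nhds hp)

lemma cdAt_hzz {f : ℂ × ℂ → ℝ} {p : ℂ × ℂ} (hf : ContDiffAt ℝ ∞ f p) :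
    ContDiffAt ℝ ∞ (hzz f) p := by
  unfold hzz
  exact ((cdAt_pd (cdAt_pd hf 0) 0).add (cdAt_pd (cdAt_pd hf 1) 1)).div_const 4

lemma cdAt_hww {f : ℂ × ℂ → ℝ} {p : ℂ × ℂ} (hf : ContDiffAt ℝ ∞ f p) :
    ContDiffAt ℝ ∞ (hww f) p := by
  unfold hww
  exact ((cdAt_pd (cdAt_pd hf 2) 2).add (cdAt_pd (cdAt_pd hf 3) 3)).div_const 4

lemma cdAt_hP {f : ℂ × ℂ → ℝ} {p : ℂ × ℂ} (hf : ContDiffAt ℝ ∞ f p) :
    ContDiffAt ℝ ∞ (hP f) p := by
  unfold hP
  exact ((cdAt_pd (cdAt_pd hf 2) 0).add (cdAt_pd (cdAt_pd hf 3) 1)).div_const 4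

lemma cdAt_hQ {f : ℂ × ℂ → ℝ} {p : ℂ × ℂ} (hf : ContDiffAt ℝ ∞ f p) :
    ContDiffAt ℝ ∞ (hQ f) p := by
  unfold hQ
  exact ((cdAt_pd (cdAt_pd hf 3) 0).sub (cdAt_pd (cdAt_pd hf 2) 1)).div_const 4

lemma cdAt_dH {f : ℂ × ℂ → ℝ} {p : ℂ × ℂ} (hf : ContDiffAt ℝ ∞ f p) :
    ContDiffAt ℝ ∞ (dH f) p := by
  unfold dH
  exact (((cdAt_hzz hf).mul (cdAt_hww hf)).sub ((cdAt_hP hf).pow 2)).sub ((cdAt_hQ hf).pow 2)

lemma continuousOn_dH {v : ℂ × ℂ → ℝ} {ρ : ℝ} (hv : ContDiffOn ℝ ∞ v (Poly ρ)) :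
    ContinuousOn (dH v) (Poly ρ) := fun p hp =>
  (cdAt_dH (contDiffAt_of_Poly hv hp)).continuousAt.continuousWithinAt

lemma integrableOn_dH {v : ℂ × ℂ → ℝ} {ρ r : ℝ} (hv : ContDiffOn ℝ ∞ v (Poly ρ)) (hr : r < ρ) :
    IntegrableOn (dH v) (PD r r) :=
  ((continuousOn_dH hv).mono (PD_subset_Poly hr)).integrableOn_compact (isCompact_PD r r)

/-- a product with a continuous function vanishing off `PD r r` is integrable -/
lemma integrable_mul {θ g : ℂ × ℂ → ℝ} {r : ℝ} (hθ : Continuous θ) (h0 : ∀ p ∉ PD r r, θ p = 0)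
    (hg : ContinuousOn g (PD r r)) : Integrable (fun p => θ p * g p) := by
  have h1 : IntegrableOn (fun p => θ p * g p) (PD r r) :=
    (hθ.continuousOn.mul hg).integrableOn_compact (isCompact_PD r r)
  refine (integrableOn_iff_integrable_of_support_subset ?_).mp h1
  intro p hp
  by_contra hcon
  exact hp (by simp [h0 p hcon])

/-! ### a continuous cut-off function -/

/-- a continuous function equal to `1` on `PD r r` and to `0` off `Poly s` -/
noncomputable def cutoff (r s : ℝ) (p : ℂ × ℂ) : ℝ :=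
  max 0 (min 1 ((s - max ‖p.1‖ ‖p.2‖) / (s - r)))

lemma continuous_cutoff (r s : ℝ) : Continuous (cutoff r s) := by
  unfold cutoff
  fun_prop

lemma cutoff_nonneg (r s : ℝ) (p : ℂ × ℂ) : 0 ≤ cutoff r s p := le_max_left _ _

lemma cutoff_le_one (r s : ℝ) (p : ℂ × ℂ) : cutoff r s p ≤ 1 :=
  max_le zero_le_one (min_le_left _ _)

lemma cutoff_eq_one {r s : ℝ} (h : r < s) {p : ℂ × ℂ} (hp : p ∈ PD r r) : cutoff r s p = 1 := by
  have h1 : max ‖p.1‖ ‖p.2‖ ≤ r := max_le hp.1 hp.2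
  have h2 : 1 ≤ (s - max ‖p.1‖ ‖p.2‖) / (s - r) := by
    rw [le_div_iff₀ (by linarith)]; linarith
  unfold cutoff
  rw [min_eq_left h2]
  exact max_eq_right zero_le_one

lemma cutoff_eq_zero {r s : ℝ} (h : r < s) {p : ℂ × ℂ} (hp : p ∉ Poly s) : cutoff r s p = 0 := by
  have h1 : s ≤ max ‖p.1‖ ‖p.2‖ := by
    by_contra hcon
    push Not at hcon
    exact hp ⟨(le_max_left _ _).trans_lt hcon, (le_max_right _ _).trans_lt hcon⟩
  have h2 : (s - max ‖p.1‖ ‖p.2‖) / (s - r) ≤ 0 :=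
    div_nonpos_of_nonpos_of_nonneg (by linarith) (by linarith)
  unfold cutoff
  exact max_eq_left ((min_le_right _ _).trans h2)

lemma tsupport_cutoff {r s : ℝ} (h : r < s) : tsupport (cutoff r s) ⊆ PD s s := by
  refine closure_minimal ?_ (isClosed_PD s s)
  intro p hp
  by_contra hcon
  exact hp (cutoff_eq_zero h (fun h2 => hcon (Poly_subset_PD s h2)))

lemma hasCompactSupport_cutoff {r s : ℝ} (h : r < s) : HasCompactSupport (cutoff r s) :=
  (isCompact_PD s s).of_isClosed_subset (isClosed_tsupport _) (tsupport_cutoff h)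

end BlockC
end CMA
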